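import Mathlib

/-!
# The signs of a second-order recurrence with automatic coefficients need not be automatic

Counterexample: `a_n = 0` for odd `n` and `a_{2m} = ε_m`, where `ε_m = 0` if `m` is `0` or a power of
two, and otherwise `ε_m = 1` or `ε_m = -1` according to whether the second binary digit of `m` is
`0` or `1`.  Then `r_n = 1` for odd `n` and `r_{2m} = ε_1 + … + ε_m`.  Each block
`2 ^ j ≤ m < 2 ^ (j+1)` contributes `-1` to this sum.  The signs are negative exactly on runs
of length `2 j` around `2 ^ (j + 1)`.  A sequence with a finite `k`-kernel has a bounded number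
of different aligned blocks of length `k ^ e`, for all `e`, so it cannot have such runs.
-/

set_option autoImplicit false

open Finset

namespace Pool.Agent.Results.MP_c55a01_nt.SignsNotAutomatic

/-- The `k`-kernel of a sequence `s`: all subsequences `n ↦ s (k ^ e * n + j)`, `0 ≤ j < k ^ e`. -/
def kernel {α : Type} (k : ℕ) (s : ℕ → α) : Set (ℕ → α) :=
  {t | ∃ e j : ℕ, j < k ^ e ∧ t = fun n => s (k ^ e * n + j)}

/-- `s` is `k`-automatic: its `k`-kernel is finite. (Then `s` takes only finitely many values.) -/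
def IsAutomatic {α : Type} (k : ℕ) (s : ℕ → α) : Prop := (kernel k s).Finite

/-- The sequence `r_0 = 0`, `r_1 = 1`, `r_n = a_n r_{n-1} + r_{n-2}` for `n ≥ 2`. -/
def r (a : ℕ → ℤ) : ℕ → ℤ
  | 0 => 0
  | 1 => 1
  | (n + 2) => a (n + 2) * r a (n + 1) + r a n

/-! ### The coefficient sequence -/

/-- `1` if the second binary digit of `m ≥ 2` is `0`, else `-1` -/
def del (m : ℕ) : ℤ := if 2 * m < 3 * 2 ^ Nat.log 2 m then 1 else -1

/-- `ε_m` -/
def eps (m : ℕ) : ℤ := if m = 0 ∨ m = 2 ^ Nat.log 2 m then 0 else del m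

/-- the coefficients `a_n` -/
def coef (n : ℕ) : ℤ := if n % 2 = 1 then 0 else eps (n / 2)

/-- the auxiliary sequences `x, y, del 2, del 3, …` -/
def D (x y : ℤ) (m : ℕ) : ℤ := if m = 0 then x else if m = 1 then y else del m

lemma log_two_mul {m : ℕ} (hm : 1 ≤ m) : Nat.log 2 (2 * m) = Nat.log 2 m + 1 := by
  rw [mul_comm, Nat.log_mul_base (by norm_num) (by omega)]

lemma log_two_mul_add {m : ℕ} (hm : 1 ≤ m) : Nat.log 2 (2 * m + 1) = Nat.log 2 m + 1 := by
  rw [Nat.log_of_one_lt_of_le (by norm_num) (by omega)]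
  congr 2
  omega

lemma del_even {m : ℕ} (hm : 1 ≤ m) : del (2 * m) = del m := by
  unfold del
  rw [log_two_mul hm, pow_succ]
  congr 1
  apply propext
  constructor <;> intro h <;> nlinarith

lemma del_odd {m : ℕ} (hm : 2 ≤ m) : del (2 * m + 1) = del m := by
  unfold del
  rw [log_two_mul_add (by omega), pow_succ]
  have h1 : 1 ≤ Nat.log 2 m := Nat.log_pos (by norm_num) hm
  obtain ⟨l, hl⟩ : ∃ l, Nat.log 2 m = l + 1 := ⟨Nat.log 2 m - 1, by omega⟩
  rw [hl, pow_succ]
  congr 1
  apply propext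
  constructor <;> intro h <;> omega

lemma del_two : del 2 = 1 := by decide
lemma del_three : del 3 = -1 := by decide

lemma eps_even (m : ℕ) : eps (2 * m) = eps m := by
  rcases Nat.eq_zero_or_pos m with rfl | hm
  · rfl
  · unfold eps
    rw [del_even hm, log_two_mul hm, pow_succ]
    congr 1
    apply propext
    constructor <;> intro h <;> omega

lemma eps_odd (m : ℕ) : eps (2 * m + 1) = D 0 (-1) m := by
  unfold D
  split_ifs with h0 h1
  · subst h0; decide
  · subst h1; decide
  · unfold eps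
    rw [if_neg, del_odd (by omega)]
    rintro (h | h)
    · omega
    · rw [log_two_mul_add (by omega), pow_succ] at h
      omega

lemma D_even (x y : ℤ) (m : ℕ) : D x y (2 * m) = D x 1 m := by
  unfold D
  rcases Nat.eq_zero_or_pos m with rfl | hm
  · rfl
  · rw [if_neg (by omega), if_neg (by omega), if_neg (by omega)]
    split_ifs with h1
    · subst h1; exact del_two
    · exact del_even hm

lemma D_odd (x y : ℤ) (m : ℕ) : D x y (2 * m + 1) = D y (-1) m := by
  unfold D
  rcases Nat.eq_zero_or_pos m with rfl | hm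
  · rfl
  · rw [if_neg (by omega), if_neg (by omega), if_neg (by omega)]
    split_ifs with h1
    · subst h1; exact del_three
    · exact del_odd (by omega)

/-- a finite set of sequences closed under the two decimations -/
lemma kernel_finite {α : Type} (T : Set (ℕ → α)) (hT : T.Finite)
    (h0 : ∀ f ∈ T, (fun n => f (2 * n)) ∈ T) (h1 : ∀ f ∈ T, (fun n => f (2 * n + 1)) ∈ T)
    (s : ℕ → α) (hs : s ∈ T) : IsAutomatic 2 s := by
  have key : ∀ (e : ℕ) (f : ℕ → α), f ∈ T → ∀ j < 2 ^ e, (fun n => f (2 ^ e * n + j)) ∈ T := by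
    intro e
    induction e with
    | zero =>
      intro f hf j hj
      have : j = 0 := by simpa using hj
      subst this
      simpa using hf
    | succ e ih =>
      intro f hf j hj
      rw [pow_succ] at hj
      rcases Nat.mod_two_eq_zero_or_one j with h | h
      · have h2 := ih _ (h0 f hf) (j / 2) (by omega)
        have h3 : (fun n => f (2 ^ (e + 1) * n + j)) =
            fun n => f (2 * (2 ^ e * n + j / 2)) := by
          funext n
          congr 1
          rw [pow_succ]
          have : j = 2 * (j / 2) := by omega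
          conv_lhs => rw [this]
          ring
        rw [h3]; exact h2
      · have h2 := ih _ (h1 f hf) (j / 2) (by omega)
        have h3 : (fun n => f (2 ^ (e + 1) * n + j)) =
            fun n => f (2 * (2 ^ e * n + j / 2) + 1) := by
          funext n
          congr 1
          rw [pow_succ]
          have : j = 2 * (j / 2) + 1 := by omega
          conv_lhs => rw [this]
          ring
        rw [h3]; exact h2
  refine hT.subset ?_
  rintro t ⟨e, j, hj, rfl⟩
  exact key e s hs j hj

lemma coef_automatic : IsAutomatic 2 coef := by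
  let V : Set ℤ := {-1, 0, 1}
  have hV : V.Finite := by simp [V]
  let T : Set (ℕ → ℤ) := {coef, eps, fun _ => 0} ∪ Set.image2 D V V
  have hfin : T.Finite := by
    refine Set.Finite.union ?_ (Set.Finite.image2 _ hV hV)
    exact Set.toFinite _
  have hm1 : (-1 : ℤ) ∈ V := by simp [V]
  have h1 : (1 : ℤ) ∈ V := by simp [V]
  have h0 : (0 : ℤ) ∈ V := by simp [V]
  have c0 : (fun n => coef (2 * n)) = eps := by
    funext n
    unfold coef
    rw [if_neg (by omega), Nat.mul_div_cancel_left _ (by norm_num)]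
  have c1 : (fun n => coef (2 * n + 1)) = fun _ => 0 := by
    funext n
    unfold coef
    rw [if_pos (by omega)]
  refine kernel_finite T hfin ?_ ?_ coef (Or.inl (by simp))
  · intro f hf
    rcases hf with (rfl | rfl | rfl) | ⟨x, hx, y, hy, rfl⟩
    · rw [c0]; exact Or.inl (by simp)
    · exact Or.inl (by right; left; funext n; exact eps_even n)
    · exact Or.inl (by simp)
    · exact Or.inr ⟨x, hx, 1, h1, by funext n; exact (D_even x y n).symm⟩
  · intro f hf
    rcases hf with (rfl | rfl | rfl) | ⟨x, hx, y, hy, rfl⟩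
    · rw [c1]; exact Or.inl (by simp)
    · exact Or.inr ⟨0, h0, -1, hm1, by funext n; exact (eps_odd n).symm⟩
    · exact Or.inl (by simp)
    · exact Or.inr ⟨y, hy, -1, hm1, by funext n; exact (D_odd x y n).symm⟩

/-! ### The sequence `r` -/

lemma r_odd (m : ℕ) : r coef (2 * m + 1) = 1 := by
  induction m with
  | zero => rfl
  | succ m ih =>
    rw [show 2 * (m + 1) + 1 = (2 * m + 1) + 2 by ring, r, ih]
    have : coef (2 * m + 1 + 2) = 0 := by unfold coef; rw [if_pos (by omega)]
    rw [this]; ring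

lemma r_even_succ (m : ℕ) : r coef (2 * (m + 1)) = r coef (2 * m) + eps (m + 1) := by
  rw [show 2 * (m + 1) = (2 * m) + 2 by ring, r, r_odd]
  have : coef (2 * m + 2) = eps (m + 1) := by
    unfold coef
    rw [if_neg (by omega)]
    congr 1
    omega
  rw [this]; ring

lemma log_eq {j m : ℕ} (h1 : 2 ^ j ≤ m) (h2 : m < 2 ^ (j + 1)) : Nat.log 2 m = j :=
  (Nat.log_eq_iff (Or.inr ⟨by norm_num, by have : 0 < 2 ^ j := by positivity
                                           omega⟩)).2 ⟨h1, h2⟩

/-- the first half of the block `[2 ^ (j + 1), 2 ^ (j + 2))` -/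
lemma r_first {j : ℕ} (h : r coef (2 * (2 ^ (j + 1) - 1)) = -(j : ℤ)) (t : ℕ) (ht : t < 2 ^ j) :
    r coef (2 * (2 ^ (j + 1) + t)) = t - j := by
  have hp : 0 < 2 ^ j := by positivity
  have hp1 : 2 ^ (j + 1) = 2 * 2 ^ j := by rw [pow_succ]; ring
  have hp2 : 2 ^ (j + 1 + 1) = 4 * 2 ^ j := by rw [pow_succ, pow_succ]; ring
  induction t with
  | zero =>
    have h1 := r_even_succ (2 ^ (j + 1) - 1)
    have h2 : 2 ^ (j + 1) - 1 + 1 = 2 ^ (j + 1) := by omega
    rw [h2] at h1
    have h3 : eps (2 ^ (j + 1)) = 0 := by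
      unfold eps
      rw [if_pos]
      right
      rw [Nat.log_pow (by norm_num)]
    rw [add_zero, h1, h, h3]
    push_cast; ring
  | succ t ih =>
    have h1 := r_even_succ (2 ^ (j + 1) + t)
    have hl : Nat.log 2 (2 ^ (j + 1) + t + 1) = j + 1 := log_eq (by omega) (by omega)
    have h3 : eps (2 ^ (j + 1) + t + 1) = 1 := by
      unfold eps
      rw [hl, if_neg (by omega)]
      unfold del
      rw [hl, if_pos (by omega)]
    rw [show 2 ^ (j + 1) + (t + 1) = 2 ^ (j + 1) + t + 1 by ring, h1, ih (by omega), h3]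
    push_cast; ring

/-- the second half of the block `[2 ^ (j + 1), 2 ^ (j + 2))` -/
lemma r_second {j : ℕ} (h : r coef (2 * (2 ^ (j + 1) - 1)) = -(j : ℤ)) (t : ℕ) (ht : t < 2 ^ j) :
    r coef (2 * (3 * 2 ^ j + t)) = 2 ^ j - j - 2 - t := by
  have hp : 0 < 2 ^ j := by positivity
  have hp1 : 2 ^ (j + 1) = 2 * 2 ^ j := by rw [pow_succ]; ring
  have hp2 : 2 ^ (j + 1 + 1) = 4 * 2 ^ j := by rw [pow_succ, pow_succ]; ring
  have he : ∀ t < 2 ^ j, eps (3 * 2 ^ j + t) = -1 := by
    intro t ht
    have hl : Nat.log 2 (3 * 2 ^ j + t) = j + 1 := log_eq (by omega) (by omega)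
    unfold eps
    rw [hl, if_neg (by omega)]
    unfold del
    rw [hl, if_neg (by omega)]
  induction t with
  | zero =>
    have h1 := r_even_succ (3 * 2 ^ j - 1)
    have h2 : 3 * 2 ^ j - 1 + 1 = 3 * 2 ^ j := by omega
    rw [h2] at h1
    have h4 := r_first h (2 ^ j - 1) (by omega)
    have h5 : 2 ^ (j + 1) + (2 ^ j - 1) = 3 * 2 ^ j - 1 := by omega
    rw [h5] at h4
    have h6 := he 0 hp
    rw [add_zero] at h6 ⊢
    rw [h1, h4, h6]
    push_cast [Nat.cast_sub (show 1 ≤ 2 ^ j from hp)]
    ring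
  | succ t ih =>
    have h1 := r_even_succ (3 * 2 ^ j + t)
    rw [show 3 * 2 ^ j + (t + 1) = 3 * 2 ^ j + t + 1 by ring, h1, ih (by omega)]
    have h2 := he (t + 1) ht
    rw [← add_assoc] at h2
    rw [h2]
    push_cast; ring

lemma r_start (j : ℕ) : r coef (2 * (2 ^ (j + 1) - 1)) = -(j : ℤ) := by
  induction j with
  | zero => decide
  | succ j ih =>
    have hp : 0 < 2 ^ j := by positivity
    have hp1 : 2 ^ (j + 1) = 2 * 2 ^ j := by rw [pow_succ]; ring
    have hp2 : 2 ^ (j + 1 + 1) = 4 * 2 ^ j := by rw [pow_succ, pow_succ]; ring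
    have h4 := r_second ih (2 ^ j - 1) (by omega)
    have h5 : 3 * 2 ^ j + (2 ^ j - 1) = 2 ^ (j + 1 + 1) - 1 := by omega
    rw [h5] at h4
    rw [h4]
    push_cast [Nat.cast_sub (show 1 ≤ 2 ^ j from hp)]
    ring

/-- the signs at the even indices -/
noncomputable def G (m : ℕ) : SignType := SignType.sign (r coef (2 * m))

/-- `j + 2 ≤ 2 ^ j` for `j ≥ 2` -/
lemma add_two_le (j : ℕ) (hj : 2 ≤ j) : j + 2 ≤ 2 ^ j := by
  induction j, hj using Nat.le_induction with
  | base => norm_num
  | succ j _ ih => rw [pow_succ]; omega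

/-- zero before the run around `2 ^ (j + 2)` -/
lemma G_zero_before {j : ℕ} (hj : 2 ≤ j) : G (2 ^ (j + 2) - (j + 2)) = 0 := by
  have h0 := add_two_le j hj
  have hp2 : 2 ^ (j + 2) = 4 * 2 ^ j := by rw [pow_add]; ring
  have h4 := r_second (r_start j) (2 ^ j - (j + 2)) (by omega)
  have h5 : 3 * 2 ^ j + (2 ^ j - (j + 2)) = 2 ^ (j + 2) - (j + 2) := by omega
  rw [h5] at h4
  unfold G
  rw [h4]
  push_cast [Nat.cast_sub h0]
  rw [sign_eq_zero_iff]
  ring

/-- positive before that -/
lemma G_pos {j : ℕ} {m : ℕ} (h1 : 2 ^ (j + 1) + j < m) (h2 : m < 2 ^ (j + 2) - (j + 2)) :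
    G m = 1 := by
  have hp1 : 2 ^ (j + 1) = 2 * 2 ^ j := by rw [pow_succ]; ring
  have hp2 : 2 ^ (j + 2) = 4 * 2 ^ j := by rw [pow_add]; ring
  unfold G
  rw [sign_eq_one_iff]
  rcases Nat.lt_or_ge m (3 * 2 ^ j) with h | h
  · obtain ⟨t, rfl⟩ : ∃ t, m = 2 ^ (j + 1) + t := ⟨m - 2 ^ (j + 1), by omega⟩
    rw [r_first (r_start j) t (by omega)]
    have : j < t := by omega
    have : (j : ℤ) < t := by exact_mod_cast this
    linarith
  · obtain ⟨t, rfl⟩ : ∃ t, m = 3 * 2 ^ j + t := ⟨m - 3 * 2 ^ j, by omega⟩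
    rw [r_second (r_start j) t (by omega)]
    have h3 : t + (j + 2) < 2 ^ j := by omega
    have h4 : (t : ℤ) + (j + 2) < 2 ^ j := by exact_mod_cast h3
    linarith

/-- the negative run -/
lemma G_neg {j : ℕ} (hj : 2 ≤ j) {i : ℕ} (h1 : 1 ≤ i) (h2 : i ≤ 2 * j + 2) :
    G (2 ^ (j + 2) - (j + 2) + i) = -1 := by
  have h0 := add_two_le j hj
  have hp1 : 2 ^ (j + 1) = 2 * 2 ^ j := by rw [pow_succ]; ring
  have hp2 : 2 ^ (j + 2) = 4 * 2 ^ j := by rw [pow_add]; ring
  have hp3 : 2 ^ (j + 1 + 1) = 4 * 2 ^ j := by rw [pow_add]; ring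
  unfold G
  rw [sign_eq_neg_one_iff]
  rcases Nat.lt_or_ge i (j + 2) with h | h
  · have h4 := r_second (r_start j) (2 ^ j - (j + 2) + i) (by omega)
    have h5 : 3 * 2 ^ j + (2 ^ j - (j + 2) + i) = 2 ^ (j + 2) - (j + 2) + i := by omega
    rw [h5] at h4
    rw [h4]
    push_cast [Nat.cast_sub h0]
    have : (1 : ℤ) ≤ i := by exact_mod_cast h1
    linarith
  · have h4 := r_first (r_start (j + 1)) (i - (j + 2)) (by omega)
    have h5 : 2 ^ (j + 1 + 1) + (i - (j + 2)) = 2 ^ (j + 2) - (j + 2) + i := by omega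
    rw [h5] at h4
    rw [h4]
    push_cast [Nat.cast_sub h]
    have : (i : ℤ) ≤ 2 * j + 2 := by exact_mod_cast h2
    linarith

/-- zero after the run -/
lemma G_zero_after {j : ℕ} (hj : 2 ≤ j) : G (2 ^ (j + 2) - (j + 2) + (2 * j + 3)) = 0 := by
  have h0 := add_two_le j hj
  have hp1 : 2 ^ (j + 1) = 2 * 2 ^ j := by rw [pow_succ]; ring
  have hp2 : 2 ^ (j + 2) = 4 * 2 ^ j := by rw [pow_add]; ring
  have hp3 : 2 ^ (j + 1 + 1) = 4 * 2 ^ j := by rw [pow_add]; ring
  have h4 := r_first (r_start (j + 1)) (j + 1) (by omega)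
  have h5 : 2 ^ (j + 1 + 1) + (j + 1) = 2 ^ (j + 2) - (j + 2) + (2 * j + 3) := by omega
  rw [h5] at h4
  unfold G
  rw [h4, sign_eq_zero_iff]
  ring

/-! ### The signs are not automatic -/

/-- decimation by `2` preserves automaticity -/
lemma automatic_even {α : Type} {k : ℕ} {s : ℕ → α} (h : IsAutomatic k s) :
    IsAutomatic k (fun n => s (2 * n)) := by
  have h1 : ((kernel k s).image (fun f n => f (2 * n)) ∪
      (kernel k s).image (fun f n => f (2 * n + 1))).Finite := (h.image _).union (h.image _)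
  refine h1.subset ?_
  rintro t ⟨e, j, hj, rfl⟩
  rcases Nat.lt_or_ge (2 * j) (k ^ e) with h2 | h2
  · left
    refine ⟨fun n => s (k ^ e * n + 2 * j), ⟨e, 2 * j, h2, rfl⟩, ?_⟩
    funext n
    simp only
    congr 1
    ring
  · right
    refine ⟨fun n => s (k ^ e * n + (2 * j - k ^ e)), ⟨e, 2 * j - k ^ e, by omega, rfl⟩, ?_⟩
    funext n
    simp only
    congr 1
    have : 2 * j = (2 * j - k ^ e) + k ^ e := by omega
    calc k ^ e * (2 * n + 1) + (2 * j - k ^ e) = 2 * (k ^ e * n) + ((2 * j - k ^ e) + k ^ e) := by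
          ring
      _ = 2 * (k ^ e * n + j) := by rw [← this]; ring

lemma G_not_automatic {k : ℕ} (hk : 2 ≤ k) : ¬ IsAutomatic k G := by
  classical
  intro hG
  let F : Finset (ℕ → SignType) := hG.toFinset
  let v : ℕ → (F → SignType) := fun q h => (h : ℕ → SignType) q
  -- blocks with the same vector are equal
  have hblock : ∀ (e q q' : ℕ), v q = v q' → ∀ i < k ^ e, G (k ^ e * q + i) = G (k ^ e * q' + i) := by
    intro e q q' hv i hi
    have hmem : (fun n => G (k ^ e * n + i)) ∈ F :=
      (Set.Finite.mem_toFinset hG).2 ⟨e, i, hi, rfl⟩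
    exact congrFun hv ⟨_, hmem⟩
  let B := Fintype.card ((F → SignType) × (F → SignType))
  -- the size of the blocks
  obtain ⟨e, he⟩ : ∃ e, 4 * (B + 20) < k ^ e := by
    obtain ⟨e, he⟩ := pow_unbounded_of_one_lt (4 * (B + 20)) (show 1 < k by omega)
    exact ⟨e, he⟩
  set L := k ^ e with hL
  -- the runs
  have hpow : ∀ n : ℕ, 8 ≤ n → 8 * n + 8 ≤ 2 ^ n := by
    intro n hn
    induction n, hn using Nat.le_induction with
    | base => norm_num
    | succ n _ ih => rw [pow_succ]; omega
  let J : Fin (B + 1) → ℕ := fun s => L / 4 + 2 + s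
  let z : ℕ → ℕ := fun j => 2 ^ (j + 2) - (j + 2)
  obtain ⟨s, s', hne, hss⟩ := Fintype.exists_ne_map_eq_of_card_lt
    (fun s : Fin (B + 1) => (v (z (J s) / L), v (z (J s) / L + 1))) (by
      rw [Fintype.card_fin]
      exact Nat.lt_succ_self _)
  wlog hlt : s < s' generalizing s s'
  · exact this s' s hne.symm hss.symm (lt_of_le_of_ne (not_lt.mp hlt) hne.symm)
  set j := J s with hj
  set j' := J s' with hj'
  have hjj : j < j' := by
    have : (s : ℕ) < s' := hlt
    simp only [hj, hj', J]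
    omega
  have hjL : L / 4 + 2 ≤ j := by simp only [hj, J]; omega
  have hj'L : 2 * j' + 3 < L := by
    have := s'.2
    simp only [hj', J]
    omega
  have hbig : ∀ j, L / 4 + 2 ≤ j → 2 * j + 3 < L → L + 2 * j + 4 < 2 ^ (j + 1) := by
    intro j h1 h2
    have := hpow j (by omega)
    rw [pow_succ]
    omega
  have hb := hbig j hjL (by omega)
  have hb' := hbig j' (by omega) hj'L
  have hLpos : 0 < L := by omega
  simp only [Prod.mk.injEq] at hss
  -- the windows agree
  have hwin : ∀ i < 2 * L, G (L * (z j / L) + i) = G (L * (z j' / L) + i) := by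
    intro i hi
    rcases Nat.lt_or_ge i L with h | h
    · exact hblock e _ _ hss.1 i h
    · have := hblock e _ _ hss.2 (i - L) (by omega)
      rw [← hL] at this
      have e1 : ∀ q, L * (q + 1) + (i - L) = L * q + i := by
        intro q
        rw [mul_add, mul_one]
        omega
      rw [e1, e1] at this
      exact this
  have hz : ∀ j, L * (z j / L) + z j % L = z j := fun j => Nat.div_add_mod _ _
  have hzl : ∀ j, z j % L < L := fun j => Nat.mod_lt _ hLpos
  -- positivity before the run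
  have hpos : ∀ j, L / 4 + 2 ≤ j → L + 2 * j + 4 < 2 ^ (j + 1) → ∀ i < z j % L,
      G (L * (z j / L) + i) = 1 := by
    intro j h1 h2 i hi
    have h3 := hz j
    have h4 := hzl j
    have h5 : 2 ^ (j + 2) = 2 * 2 ^ (j + 1) := by rw [pow_succ]; ring
    have h6 : z j = 2 ^ (j + 2) - (j + 2) := rfl
    apply G_pos (j := j) <;> omega
  have hzero : ∀ j, L / 4 + 2 ≤ j → G (L * (z j / L) + z j % L) = 0 := by
    intro j h1
    rw [hz]
    exact G_zero_before (by omega)
  have ho : z j % L = z j' % L := by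
    rcases Nat.lt_trichotomy (z j % L) (z j' % L) with h | h | h
    · exfalso
      have h1 := hpos j' (by omega) hb' _ h
      rw [← hwin _ (by have := hzl j; omega), hzero j hjL] at h1
      exact absurd h1 (by decide)
    · exact h
    · exfalso
      have h1 := hpos j hjL hb _ h
      rw [hwin _ (by have := hzl j'; omega), hzero j' (by omega)] at h1
      exact absurd h1 (by decide)
  have h1 : G (L * (z j / L) + (z j % L + (2 * j + 3))) = 0 := by
    rw [← add_assoc, hz]
    exact G_zero_after (by omega)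
  have h2 : G (L * (z j' / L) + (z j % L + (2 * j + 3))) = -1 := by
    rw [ho, ← add_assoc, hz]
    exact G_neg (by omega) (by omega) (by omega)
  rw [hwin _ (by have := hzl j; omega), h2] at h1
  exact absurd h1 (by decide)

/-- **Theorem.** There is a `2`-automatic sequence `a` with values in `{-1, 0, 1}` such that for the
sequence `r_0 = 0`, `r_1 = 1`, `r_n = a_n r_{n-1} + r_{n-2}` the sequence of the signs of `r_n` is not
`k`-automatic for any `k ≥ 2`. -/
theorem result : ∃ a : ℕ → ℤ, (∀ n, a n = -1 ∨ a n = 0 ∨ a n = 1) ∧ IsAutomatic 2 a ∧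
    ∀ k : ℕ, 2 ≤ k → ¬ IsAutomatic k (fun n => SignType.sign (r a n)) := by
  refine ⟨coef, fun n => ?_, coef_automatic, fun k hk h => ?_⟩
  · unfold coef eps del
    split_ifs <;> simp
  · exact G_not_automatic hk (automatic_even h)

end Pool.Agent.Results.MP_c55a01_nt.SignsNotAutomatic
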